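import Mathlib

set_option autoImplicit false

/-!
Definitions of block G1 (zero estimate): the derivation `P(s) d/ds + B(s,v) d/dv` on
polynomials in `s, v` (elements of `k[X][X]`, the outer variable is `v`).
-/

namespace Pool.Agent.Work.MP_f2148a_nt.M56.G1

open Polynomial

variable {k : Type*} [Field k]

/-- `P d/ds`, coefficient by coefficient. -/
noncomputable def dS (P : k[X]) (f : k[X][X]) : k[X][X] :=
  f.sum fun j c => monomial j (P * derivative c)

/-- The derivation `P(s) d/ds + B(s,v) d/dv`. -/
noncomputable def dl (P : k[X]) (B f : k[X][X]) : k[X][X] :=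
  dS P f + B * derivative f

/-- Evaluation at `(s, v)`. -/
noncomputable def ev (s v : k) (f : k[X][X]) : k := (f.map (evalRingHom s)).eval v

end Pool.Agent.Work.MP_f2148a_nt.M56.G1
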