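import Mathlib
import Pool.Agent.Work.MP_f2148a_nt.M56.G1.Defs

set_option autoImplicit false

/-!
`dl P B` is a derivation of `k[X][X]`; its iterates on constants.
-/

namespace Pool.Agent.Work.MP_f2148a_nt.M56.G1

open Polynomial

variable {k : Type*} [Field k]

theorem coeff_dS (P : k[X]) (f : k[X][X]) (j : ℕ) :
    (dS P f).coeff j = P * derivative (f.coeff j) := by
  unfold dS
  rw [Polynomial.sum_def, finsetSum_coeff]
  simp only [coeff_monomial]
  rw [Finset.sum_ite_eq']
  split_ifs with h
  · rfl
  · rw [notMem_support_iff.1 h]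
    simp

theorem dS_add (P : k[X]) (f g : k[X][X]) : dS P (f + g) = dS P f + dS P g := by
  refine Polynomial.ext fun j => ?_
  simp only [coeff_add, coeff_dS, derivative_add, mul_add]

theorem dS_mul (P : k[X]) (f g : k[X][X]) : dS P (f * g) = f * dS P g + g * dS P f := by
  refine Polynomial.ext fun j => ?_
  rw [coeff_dS, coeff_mul, derivative_sum, coeff_add, coeff_mul, mul_comm g, coeff_mul,
    ← Finset.sum_add_distrib, Finset.mul_sum]
  refine Finset.sum_congr rfl fun x _ => ?_
  rw [coeff_dS, coeff_dS, derivative_mul]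
  ring

theorem dS_C (P r : k[X]) : dS P (C r) = C (P * derivative r) := by
  refine Polynomial.ext fun j => ?_
  rw [coeff_dS, coeff_C, coeff_C]
  split_ifs <;> simp

theorem dS_zero (P : k[X]) : dS P 0 = 0 := by
  refine Polynomial.ext fun j => ?_
  rw [coeff_dS]
  simp

/-- `dl P B` as a derivation. -/
noncomputable def dD (P : k[X]) (B : k[X][X]) : Derivation ℤ k[X][X] k[X][X] :=
  Derivation.mk' (AddMonoidHom.toIntLinearMap
    { toFun := dl P B
      map_zero' := by
        unfold dl
        rw [dS_zero, derivative_zero, mul_zero, add_zero]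
      map_add' := fun f g => by
        unfold dl
        rw [dS_add, derivative_add]
        ring }) fun f g => by
    show dl P B (f * g) = f • dl P B g + g • dl P B f
    unfold dl
    rw [dS_mul, derivative_mul, smul_eq_mul, smul_eq_mul]
    ring

theorem dD_apply (P : k[X]) (B f : k[X][X]) : dD P B f = dl P B f := rfl

theorem dl_C (P : k[X]) (B : k[X][X]) (r : k[X]) : dl P B (C r) = C (P * derivative r) := by
  unfold dl
  rw [dS_C, derivative_C, mul_zero, add_zero]

theorem iter_C (P : k[X]) (B : k[X][X]) (r : k[X]) (l : ℕ) :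
    (dl P B)^[l] (C r) = C ((fun r => P * derivative r)^[l] r) := by
  induction l generalizing r with
  | zero => rfl
  | succ l ih =>
    rw [Function.iterate_succ_apply, Function.iterate_succ_apply, dl_C, ih]

/-- Evaluation as a ring homomorphism. -/
noncomputable def evH (s v : k) : k[X][X] →+* k :=
  (evalRingHom v).comp (mapRingHom (evalRingHom s))

theorem evH_apply (s v : k) (f : k[X][X]) : evH s v f = ev s v f := rfl

theorem ev_C (s v : k) (r : k[X]) : ev s v (C r) = r.eval s := by
  unfold ev
  simp

/-- The order of vanishing along the derivation of a polynomial in `s` only. -/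
theorem iter_ne_zero [CharZero k] (P : k[X]) (s : k) (hP : P.eval s ≠ 0) (κ : ℕ) (q : k[X])
    (hq : q.eval s ≠ 0) :
    ((fun r => P * derivative r)^[κ] ((X - C s) ^ κ * q)).eval s ≠ 0 := by
  induction κ generalizing q with
  | zero => simpa using hq
  | succ κ ih =>
    rw [Function.iterate_succ_apply]
    have h : P * derivative ((X - C s) ^ (κ + 1) * q) =
        (X - C s) ^ κ * (P * ((C ((κ : k) + 1)) * q + (X - C s) * derivative q)) := by
      rw [derivative_mul, derivative_X_sub_C_pow]
      simp only [Nat.add_sub_cancel]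
      push_cast
      simp only [map_add, map_one, map_natCast]
      ring
    simp only [h]
    refine ih _ ?_
    simp only [eval_mul, eval_add, eval_C, eval_sub, eval_X, sub_self, zero_mul, add_zero]
    exact mul_ne_zero hP (mul_ne_zero (Nat.cast_add_one_ne_zero κ) hq)

theorem exists_iter_ne_zero [CharZero k] (P : k[X]) (B : k[X][X]) (s v : k)
    (hP : P.eval s ≠ 0) (r : k[X]) (hr : r ≠ 0) : ∃ l, ev s v ((dl P B)^[l] (C r)) ≠ 0 := by
  obtain ⟨m, q, hq, hq'⟩ : ∃ (m : ℕ) (q : k[X]), r = (X - C s) ^ m * q ∧ ¬ (X - C s) ∣ q := by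
    obtain ⟨q, hq, hq'⟩ := Polynomial.exists_eq_pow_rootMultiplicity_mul_and_not_dvd r hr s
    exact ⟨_, q, hq, hq'⟩
  have hq0 : q.eval s ≠ 0 := fun h => hq' (by rwa [dvd_iff_isRoot])
  have h1 := iter_ne_zero P s hP m q hq0
  rw [← hq] at h1
  refine ⟨m, ?_⟩
  rw [iter_C, ev_C]
  exact h1

end Pool.Agent.Work.MP_f2148a_nt.M56.G1
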