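import Mathlib

set_option autoImplicit false

/-!
Minors of a family of vectors of polynomials and a connection `P d/ds + B`:
derivative of a minor, Cramer expansion, degree.
-/

namespace Pool.Agent.Work.MP_f2148a_nt.M56.G1

open Polynomial Matrix

variable {k : Type*} [Field k]

/-- The connection operator on vectors of polynomials. -/
noncomputable def nabla {n : ℕ} (P : k[X]) (B : Matrix (Fin n) (Fin n) k[X])
    (g : Fin n → k[X]) : Fin n → k[X] :=
  fun j => P * derivative (g j) + (B *ᵥ g) j

/-- The minor of the vectors `g` on the coordinates `r`. -/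
noncomputable def mnr {n d : ℕ} (g : Fin d → Fin n → k[X]) (r : Fin d → Fin n) : k[X] :=
  (Matrix.of fun a b => g a (r b)).det

theorem det_updateRow_eq {d : ℕ} (G : Matrix (Fin d) (Fin d) k[X]) (a : Fin d)
    (u : Fin d → k[X]) : (G.updateRow a u).det = ∑ b, G.adjugate b a * u b := by
  rw [← Matrix.cramer_transpose_apply, Matrix.cramer_eq_adjugate_mulVec, ← Matrix.adjugate_transpose]
  simp [Matrix.mulVec, dotProduct]

theorem det_updateCol_eq {d : ℕ} (G : Matrix (Fin d) (Fin d) k[X]) (b : Fin d)
    (u : Fin d → k[X]) : (G.updateCol b u).det = ∑ a, G.adjugate b a * u a := by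
  rw [← Matrix.cramer_apply, Matrix.cramer_eq_adjugate_mulVec]
  simp [Matrix.mulVec, dotProduct]

theorem derivative_det {d : ℕ} (G : Matrix (Fin d) (Fin d) k[X]) :
    derivative G.det = ∑ a, (G.updateRow a fun b => derivative (G a b)).det := by
  rw [Matrix.det_apply']
  simp only [Matrix.det_apply']
  rw [Finset.sum_comm, derivative_sum]
  refine Finset.sum_congr rfl fun σ _ => ?_
  rw [derivative_mul]
  have h0 : derivative (((Equiv.Perm.sign σ : ℤ) : k[X])) = 0 := by
    exact derivative_intCast
  rw [h0, zero_mul, zero_add, ← Finset.mul_sum]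
  congr 1
  rw [Polynomial.derivative_prod_finset]
  rw [← Equiv.sum_comp σ (fun i => ∏ x, (G.updateRow i fun b => derivative (G i b)) (σ x) x)]
  refine Finset.sum_congr rfl fun i _ => ?_
  rw [← Finset.mul_prod_erase Finset.univ
    (fun x => (G.updateRow (σ i) fun b => derivative (G (σ i) b)) (σ x) x) (Finset.mem_univ i)]
  rw [mul_comm]
  congr 1
  · simp
  · refine Finset.prod_congr rfl fun j hj => ?_
    have hne : σ j ≠ σ i := fun h => (Finset.ne_of_mem_erase hj) (σ.injective h)
    rw [Matrix.updateRow_ne hne]

/-- The derivative of a minor. -/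
theorem derivative_mnr {n d : ℕ} (P : k[X]) (B : Matrix (Fin n) (Fin n) k[X])
    (g : Fin d → Fin n → k[X]) (r : Fin d → Fin n) :
    P * derivative (mnr g r) =
      (∑ a, mnr (Function.update g a (nabla P B (g a))) r) -
        ∑ b, ∑ t, B (r b) t * mnr g (Function.update r b t) := by
  classical
  set G : Matrix (Fin d) (Fin d) k[X] := Matrix.of fun a b => g a (r b) with hG
  have h1 : ∀ a, mnr (Function.update g a (nabla P B (g a))) r =
      (G.updateRow a fun b => P * derivative (g a (r b)) + (B *ᵥ g a) (r b)).det := by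
    intro a
    unfold mnr
    congr 1
    ext i j
    by_cases h : i = a
    · subst h
      simp [nabla]
    · simp [Function.update_of_ne h, Matrix.updateRow_ne h, hG]
  have h2 : ∀ b t, mnr g (Function.update r b t) = (G.updateCol b fun a => g a t).det := by
    intro b t
    unfold mnr
    congr 1
    ext i j
    by_cases h : j = b
    · subst h
      simp
    · simp [Function.update_of_ne h, Matrix.updateCol_ne h, hG]
  simp only [h1, h2, det_updateRow_eq, det_updateCol_eq]
  have h3 : derivative (mnr g r) = ∑ a, ∑ b, G.adjugate b a * derivative (g a (r b)) := by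
    unfold mnr
    rw [← hG, derivative_det]
    simp only [det_updateRow_eq]
    rfl
  rw [h3]
  simp only [mul_add, Finset.sum_add_distrib, Matrix.mulVec, dotProduct]
  have h4 : ∑ x, ∑ x_1, B (r x) x_1 * ∑ x_2, G.adjugate x x_2 * g x_2 x_1 =
      ∑ x, ∑ x_1, G.adjugate x_1 x * ∑ x_2, B (r x_1) x_2 * g x x_2 := by
    simp only [Finset.mul_sum]
    conv_rhs => rw [Finset.sum_comm]
    refine Finset.sum_congr rfl fun b _ => ?_
    rw [Finset.sum_comm]
    refine Finset.sum_congr rfl fun a _ => Finset.sum_congr rfl fun t _ => ?_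
    ring
  rw [h4, add_sub_cancel_right]
  simp only [Finset.mul_sum]
  refine Finset.sum_congr rfl fun a _ => Finset.sum_congr rfl fun b _ => ?_
  ring

/-- Degree of a minor. -/
theorem natDegree_mnr_le {n d : ℕ} (g : Fin d → Fin n → k[X]) (r : Fin d → Fin n)
    (D : Fin d → ℕ) (h : ∀ a j, (g a j).natDegree ≤ D a) :
    (mnr g r).natDegree ≤ ∑ a, D a := by
  unfold mnr
  rw [Matrix.det_apply']
  refine Polynomial.natDegree_sum_le_of_forall_le _ _ fun σ _ => ?_
  refine (Polynomial.natDegree_mul_le).trans ?_
  rw [Polynomial.natDegree_intCast, zero_add]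
  refine (Polynomial.natDegree_prod_le _ _).trans ?_
  rw [← Equiv.sum_comp σ D]
  exact Finset.sum_le_sum fun i _ => by simpa using h (σ i) (r i)

end Pool.Agent.Work.MP_f2148a_nt.M56.G1
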