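import Mathlib
import Pool.Agent.Work.MP_f2148a_nt.M56.G1.Minor

set_option autoImplicit false

/-!
Orders of vanishing of the minors of a sequence `f (l+1) = nabla (f l)`.
-/

namespace Pool.Agent.Work.MP_f2148a_nt.M56.G1

open Polynomial Matrix

variable {k : Type*} [Field k]

private theorem dvd_of_deriv [CharZero k] (s : k) (κ : ℕ) (hκ : 1 ≤ κ) (g : k[X])
    (h1 : (X - C s) ^ κ ∣ g) (h2 : (X - C s) ^ κ ∣ derivative g) : (X - C s) ^ (κ + 1) ∣ g := by
  obtain ⟨q, rfl⟩ := h1
  obtain ⟨j, rfl⟩ : ∃ j, κ = j + 1 := ⟨κ - 1, by omega⟩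
  have hne : ((X - C s) ^ j : k[X]) ≠ 0 := pow_ne_zero _ (X_sub_C_ne_zero s)
  have h3 : (X - C s) ∣ C ((j : k) + 1) * q := by
    have e : derivative ((X - C s) ^ (j + 1) * q) =
        (X - C s) ^ j * (C ((j : k) + 1) * q) + (X - C s) ^ (j + 1) * derivative q := by
      rw [derivative_mul, derivative_X_sub_C_pow]
      simp only [Nat.add_sub_cancel]
      push_cast
      simp only [map_add, map_one, map_natCast]
      ring
    rw [e] at h2
    have h4 : (X - C s) ^ (j + 1) ∣ (X - C s) ^ j * (C ((j : k) + 1) * q) :=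
      (dvd_add_left (Dvd.intro _ rfl)).mp h2
    rw [pow_succ] at h4
    exact (mul_dvd_mul_iff_left hne).mp h4
  have h5 : (X - C s) ∣ q := by
    rw [dvd_iff_isRoot] at h3 ⊢
    simp only [IsRoot.def, eval_mul, eval_C] at h3 ⊢
    rcases mul_eq_zero.mp h3 with h | h
    · exact absurd h (Nat.cast_add_one_ne_zero j)
    · exact h
  rw [pow_succ (X - C s) (j + 1)]
  exact mul_dvd_mul_left _ h5

/-- If all minors of the vectors `f l`, `l < μ`, vanish at `s`, the minors vanish to high order. -/
theorem pow_dvd_mnr [CharZero k] {n d : ℕ} (P : k[X]) (B : Matrix (Fin n) (Fin n) k[X])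
    (f : ℕ → Fin n → k[X]) (hf : ∀ l, f (l + 1) = nabla P B (f l)) (s : k) (hs : P.eval s ≠ 0)
    (μ : ℕ)
    (h : ∀ σ : Fin d → ℕ, (∀ a, σ a < μ) → ∀ r, (mnr (fun a => f (σ a)) r).eval s = 0)
    (κ : ℕ) (σ : Fin d → ℕ) (hσ : ∀ a, σ a + κ ≤ μ) (r : Fin d → Fin n) :
    (X - C s) ^ κ ∣ mnr (fun a => f (σ a)) r := by
  classical
  induction κ generalizing σ r with
  | zero => simp
  | succ κ ih =>
    rcases Nat.eq_zero_or_pos κ with rfl | hκ
    · rw [zero_add, pow_one, dvd_iff_isRoot, IsRoot.def]
      exact h σ (fun a => by have := hσ a; omega) r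
    · refine dvd_of_deriv s κ hκ _ (ih σ (fun a => by have := hσ a; omega) r) ?_
      have h4 : (X - C s) ^ κ ∣ P * derivative (mnr (fun a => f (σ a)) r) := by
        rw [derivative_mnr P B]
        refine dvd_sub (Finset.dvd_sum fun a _ => ?_)
          (Finset.dvd_sum fun b _ => Finset.dvd_sum fun t _ => Dvd.dvd.mul_left ?_ _)
        · have e : (Function.update (fun a => f (σ a)) a (nabla P B (f (σ a)))) =
              fun i => f ((Function.update σ a (σ a + 1)) i) := by
            funext i
            by_cases hi : i = a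
            · subst hi
              simp [hf]
            · simp [Function.update_of_ne hi]
          rw [e]
          refine ih _ (fun i => ?_) r
          by_cases hi : i = a
          · subst hi
            simp only [Function.update_self]
            have := hσ i
            omega
          · simp only [Function.update_of_ne hi]
            have := hσ i
            omega
        · exact ih σ (fun a => by have := hσ a; omega) _
      refine (prime_X_sub_C s).pow_dvd_of_dvd_mul_left κ ?_ h4
      rw [dvd_iff_isRoot, IsRoot.def]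
      exact hs

end Pool.Agent.Work.MP_f2148a_nt.M56.G1
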