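import Mathlib
import Pool.Agent.Work.MP_f2148a_nt.M56.G1.Minor

set_option autoImplicit false

/-!
The rank of a sequence `f (l+1) = nabla (f l)`: there are `d ≤ n` and a nonzero minor of
`f 0, ..., f (d-1)` such that all minors of size `d+1` of the sequence vanish.
-/

namespace Pool.Agent.Work.MP_f2148a_nt.M56.G1

open Polynomial Matrix

variable {k : Type*} [Field k]

/-- Cramer expansion of a minor of size `d+1` along the first column. -/
theorem mnr_cons {n d : ℕ} (g : Fin (d + 1) → Fin n → k[X]) (r : Fin d → Fin n) (t : Fin n) :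
    mnr g (Fin.cons t r) =
      ∑ i : Fin (d + 1), (-1) ^ (i : ℕ) * g i t * mnr (fun a => g (i.succAbove a)) r := by
  unfold mnr
  rw [Matrix.det_succ_column_zero]
  refine Finset.sum_congr rfl fun i _ => ?_
  congr 1

/-- A minor with a repeated coordinate vanishes. -/
theorem mnr_eq_zero_of_not_injective {n d : ℕ} (g : Fin d → Fin n → k[X]) (r : Fin d → Fin n)
    (h : ¬ Function.Injective r) : mnr g r = 0 := by
  unfold mnr
  simp only [Function.Injective, not_forall] at h
  obtain ⟨a, b, hab, hne⟩ := h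
  exact Matrix.det_zero_of_column_eq hne (fun i => by simp [hab])

/-- Saturation of the span of finitely many vectors of polynomials. -/
def Sat {n d : ℕ} (g : Fin d → Fin n → k[X]) (v : Fin n → k[X]) : Prop :=
  ∃ q : k[X], q ≠ 0 ∧ ∃ c : Fin d → k[X], q • v = ∑ a, c a • g a

theorem Sat.mem {n d : ℕ} (g : Fin d → Fin n → k[X]) (a : Fin d) : Sat g (g a) := by
  classical
  exact ⟨1, one_ne_zero, Pi.single a 1, by simp [Pi.single_apply, ite_smul]⟩

theorem Sat.add {n d : ℕ} {g : Fin d → Fin n → k[X]} {v w : Fin n → k[X]} (hv : Sat g v)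
    (hw : Sat g w) : Sat g (v + w) := by
  obtain ⟨q, hq, c, hc⟩ := hv
  obtain ⟨q', hq', c', hc'⟩ := hw
  refine ⟨q * q', mul_ne_zero hq hq', fun a => q' * c a + q * c' a, ?_⟩
  simp only [add_smul, mul_smul, Finset.sum_add_distrib, ← Finset.smul_sum, ← hc, ← hc', smul_add]
  rw [smul_comm q q' v]

theorem Sat.smul {n d : ℕ} {g : Fin d → Fin n → k[X]} {v : Fin n → k[X]} (hv : Sat g v)
    (p : k[X]) : Sat g (p • v) := by
  obtain ⟨q, hq, c, hc⟩ := hv
  refine ⟨q, hq, fun a => p * c a, ?_⟩
  simp only [mul_smul, ← Finset.smul_sum, ← hc]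
  rw [smul_comm]

theorem Sat.zero {n d : ℕ} (g : Fin d → Fin n → k[X]) : Sat g 0 :=
  ⟨1, one_ne_zero, 0, by simp⟩

theorem Sat.sum {n d : ℕ} {g : Fin d → Fin n → k[X]} {ι : Type*} (s : Finset ι)
    (v : ι → Fin n → k[X]) (h : ∀ i ∈ s, Sat g (v i)) : Sat g (∑ i ∈ s, v i) := by
  classical
  induction s using Finset.induction_on with
  | empty => simpa using Sat.zero g
  | insert a s ha ih =>
    rw [Finset.sum_insert ha]
    exact (h a (by simp)).add (ih fun i hi => h i (by simp [hi]))

theorem Sat.of_smul {n d : ℕ} {g : Fin d → Fin n → k[X]} {v : Fin n → k[X]} {p : k[X]}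
    (hp : p ≠ 0) (hv : Sat g (p • v)) : Sat g v := by
  obtain ⟨q, hq, c, hc⟩ := hv
  exact ⟨q * p, mul_ne_zero hq hp, c, by rw [mul_smul, hc]⟩

theorem nabla_smul {n : ℕ} (P : k[X]) (B : Matrix (Fin n) (Fin n) k[X]) (p : k[X])
    (v : Fin n → k[X]) : nabla P B (p • v) = (P * derivative p) • v + p • nabla P B v := by
  funext j
  simp only [nabla, Pi.smul_apply, smul_eq_mul, derivative_mul, Matrix.mulVec_smul, Pi.add_apply]
  ring

theorem nabla_sum {n : ℕ} (P : k[X]) (B : Matrix (Fin n) (Fin n) k[X]) {ι : Type*}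
    (s : Finset ι) (v : ι → Fin n → k[X]) :
    nabla P B (∑ i ∈ s, v i) = ∑ i ∈ s, nabla P B (v i) := by
  classical
  funext j
  simp only [nabla, Finset.sum_apply, derivative_sum, Matrix.mulVec_sum, Finset.mul_sum,
    Finset.sum_add_distrib]

/-- If `f d` is in the saturated span of the first `d` vectors, so are all `f l`. -/
theorem Sat.all {n d : ℕ} (P : k[X]) (B : Matrix (Fin n) (Fin n) k[X])
    (f : ℕ → Fin n → k[X]) (hf : ∀ l, f (l + 1) = nabla P B (f l))
    (h : Sat (fun a : Fin d => f a) (f d)) (l : ℕ) : Sat (fun a : Fin d => f a) (f l) := by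
  have hs : ∀ a : Fin d, Sat (fun a : Fin d => f a) (f (a + 1)) := by
    intro a
    rcases Nat.lt_or_ge ((a : ℕ) + 1) d with h1 | h1
    · exact Sat.mem (fun a : Fin d => f a) ⟨a + 1, h1⟩
    · have : (a : ℕ) + 1 = d := le_antisymm a.2 h1
      rw [this]
      exact h
  have hn : ∀ v, Sat (fun a : Fin d => f a) v → Sat (fun a : Fin d => f a) (nabla P B v) := by
    intro v hv
    have hv' := hv
    obtain ⟨q, hq, c, hc⟩ := hv
    have e := nabla_smul P B q v
    rw [hc, nabla_sum] at e
    have e2 : q • nabla P B v = (∑ a, nabla P B (c a • f a)) + (-(P * derivative q)) • v := by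
      rw [e]
      simp
    refine Sat.of_smul hq ?_
    rw [e2]
    refine Sat.add (Sat.sum _ _ fun a _ => ?_) (hv'.smul _)
    rw [nabla_smul]
    refine Sat.add ((Sat.mem (fun a : Fin d => f a) a).smul _) ?_
    rw [← hf]
    exact (hs a).smul _
  rcases Nat.lt_or_ge l d with h1 | h1
  · exact Sat.mem (fun a : Fin d => f a) ⟨l, h1⟩
  · induction l, h1 using Nat.le_induction with
    | base => exact h
    | succ l _ ih =>
      rw [hf]
      exact hn _ ih

/-- Minors of size `d+1` of vectors in the saturated span of `d` vectors vanish. -/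
theorem mnr_eq_zero_of_sat {n d : ℕ} (g : Fin d → Fin n → k[X]) (v : Fin (d + 1) → Fin n → k[X])
    (hv : ∀ a, Sat g (v a)) (r : Fin (d + 1) → Fin n) : mnr v r = 0 := by
  choose q hq c hc using hv
  have h1 : mnr (fun a => q a • v a) r = (∏ a, q a) * mnr v r := by
    unfold mnr
    rw [← Matrix.det_mul_column]
    rfl
  have h2 : mnr (fun a => q a • v a) r = 0 := by
    let A : Matrix (Fin (d + 1)) (Fin (d + 1)) k[X] := Matrix.of fun a => Fin.cons 0 (c a)
    let F : Matrix (Fin (d + 1)) (Fin (d + 1)) k[X] :=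
      Matrix.of fun a b => (Fin.cons 0 (fun a => g a (r b)) : Fin (d + 1) → k[X]) a
    have h3 : (Matrix.of fun a b => (q a • v a) (r b)) = A * F := by
      refine Matrix.ext fun a b => ?_
      rw [Matrix.mul_apply, Fin.sum_univ_succ]
      rw [Matrix.of_apply, hc, Finset.sum_apply]
      simp only [A, F, Matrix.of_apply, Fin.cons_zero, Fin.cons_succ, mul_zero, zero_add,
        Pi.smul_apply, smul_eq_mul]
    unfold mnr
    rw [h3, Matrix.det_mul]
    have h4 : A.det = 0 := Matrix.det_eq_zero_of_column_eq_zero 0 (fun i => by simp [A])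
    rw [h4, zero_mul]
  rw [h1] at h2
  exact (mul_eq_zero.mp h2).resolve_left (Finset.prod_ne_zero_iff.mpr fun a _ => hq a)

/-- The rank of the sequence. -/
theorem exists_rank {n : ℕ} (P : k[X]) (B : Matrix (Fin n) (Fin n) k[X])
    (f : ℕ → Fin n → k[X]) (hf : ∀ l, f (l + 1) = nabla P B (f l)) :
    ∃ d ≤ n, (∃ r : Fin d → Fin n, mnr (fun a : Fin d => f a) r ≠ 0) ∧
      ∀ (σ : Fin (d + 1) → ℕ) (r : Fin (d + 1) → Fin n), mnr (fun a => f (σ a)) r = 0 := by
  classical
  have hb : ∀ d, (∃ r : Fin d → Fin n, mnr (fun a : Fin d => f a) r ≠ 0) → d ≤ n := by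
    rintro d ⟨r, hr⟩
    by_contra hcon
    apply hr
    apply mnr_eq_zero_of_not_injective
    intro hi
    have := Fintype.card_le_of_injective r hi
    simp at this
    omega
  have h0 : ∃ r : Fin 0 → Fin n, mnr (fun a : Fin 0 => f a) r ≠ 0 :=
    ⟨Fin.elim0, by simp [mnr]⟩
  let Q : ℕ → Prop := fun d => ∃ r : Fin d → Fin n, mnr (fun a : Fin d => f a) r ≠ 0
  have hQ0 : Q 0 := h0
  refine ⟨Nat.findGreatest Q n, Nat.findGreatest_le n, ?_, ?_⟩
  · exact Nat.findGreatest_spec (P := Q) (Nat.zero_le n) hQ0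
  · set d := Nat.findGreatest Q n with hd
    have hQd : Q d := Nat.findGreatest_spec (P := Q) (Nat.zero_le n) hQ0
    have hmax : ¬ Q (d + 1) := by
      intro hc
      have h1 := hb _ hc
      have h2 := Nat.le_findGreatest (P := Q) h1 hc
      omega
    have hall : ∀ r : Fin (d + 1) → Fin n, mnr (fun a : Fin (d + 1) => f a) r = 0 := by
      intro r
      by_contra hne
      exact hmax ⟨r, hne⟩
    obtain ⟨r, hr⟩ := hQd
    have hsat : Sat (fun a : Fin d => f a) (f d) := by
      have key : ∀ t, ∑ i : Fin (d + 1), (-1) ^ (i : ℕ) * f i t *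
          mnr (fun a => f ((i.succAbove a : Fin (d + 1)) : ℕ)) r = 0 := by
        intro t
        rw [← mnr_cons (fun a : Fin (d + 1) => f a) r t]
        exact hall _
      refine ⟨(-1) ^ d * mnr (fun a : Fin d => f a) r,
        mul_ne_zero (pow_ne_zero _ (by simp)) hr,
        fun a => -((-1) ^ (a : ℕ) *
          mnr (fun b => f ((a.castSucc.succAbove b : Fin (d + 1)) : ℕ)) r), ?_⟩
      funext t
      have h1 := key t
      rw [Fin.sum_univ_castSucc] at h1
      simp only [Fin.val_castSucc, Fin.val_last, Fin.succAbove_last] at h1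
      simp only [Pi.smul_apply, smul_eq_mul, Finset.sum_apply, neg_mul, Finset.sum_neg_distrib]
      have h2 : ∑ x : Fin d, (-1) ^ (x : ℕ) *
          mnr (fun b => f ((x.castSucc.succAbove b : Fin (d + 1)) : ℕ)) r * f x t =
          ∑ x : Fin d, (-1) ^ (x : ℕ) * f x t *
          mnr (fun b => f ((x.castSucc.succAbove b : Fin (d + 1)) : ℕ)) r :=
        Finset.sum_congr rfl fun x _ => by ring
      rw [h2]
      linear_combination h1
    intro σ r'
    exact mnr_eq_zero_of_sat (fun a : Fin d => f a) _ (fun a => Sat.all P B f hf hsat _) r'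

end Pool.Agent.Work.MP_f2148a_nt.M56.G1
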