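import Mathlib
import Pool.Agent.Work.MP_f2148a_nt.M56.G1.Order
import Pool.Agent.Work.MP_f2148a_nt.M56.G1.Rank

set_option autoImplicit false

/-!
The linear algebra part of the zero estimate: if at the points `s i` the functionals `φ i` vanish on
the values of `f 0, ..., f (μ-1)` and at most `e` of the points are exceptional (the functional
vanishes on the values of all `f l`) then the number of points is bounded.
-/

namespace Pool.Agent.Work.MP_f2148a_nt.M56.G1

open Polynomial Matrix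

variable {k : Type*} [Field k]

/-- Cramer's rule at a point: if a minor of size `d` does not vanish at `s`, all minors of size
`d+1` vanish identically and the functional `φ` kills the rows of the minor, it kills all rows. -/
theorem sum_eq_zero_of_minor {n d : ℕ} (f : ℕ → Fin n → k[X])
    (hmin : ∀ (σ : Fin (d + 1) → ℕ) (r : Fin (d + 1) → Fin n), mnr (fun a => f (σ a)) r = 0)
    (s : k) (φ : Fin n → k) (σ : Fin d → ℕ) (r : Fin d → Fin n)
    (hne : (mnr (fun a => f (σ a)) r).eval s ≠ 0)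
    (hz : ∀ a, ∑ j, φ j * (f (σ a) j).eval s = 0) (l : ℕ) : ∑ j, φ j * (f l j).eval s = 0 := by
  have key : ∀ t : Fin n, ∑ i : Fin (d + 1), (-1) ^ (i : ℕ) *
      (f ((Fin.cons l σ : Fin (d + 1) → ℕ) i) t).eval s *
      (mnr (fun a => f ((Fin.cons l σ : Fin (d + 1) → ℕ) (i.succAbove a))) r).eval s = 0 := by
    intro t
    have h1 := hmin (Fin.cons l σ) (Fin.cons t r)
    rw [mnr_cons] at h1
    have h2 := congrArg (fun p : k[X] => p.eval s) h1
    simpa [eval_finsetSum] using h2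
  have h3 : ∑ t, φ t * ∑ i : Fin (d + 1), (-1) ^ (i : ℕ) *
      (f ((Fin.cons l σ : Fin (d + 1) → ℕ) i) t).eval s *
      (mnr (fun a => f ((Fin.cons l σ : Fin (d + 1) → ℕ) (i.succAbove a))) r).eval s = 0 :=
    Finset.sum_eq_zero fun t _ => by rw [key t, mul_zero]
  have h4 : ∑ t, φ t * ∑ i : Fin (d + 1), (-1) ^ (i : ℕ) *
      (f ((Fin.cons l σ : Fin (d + 1) → ℕ) i) t).eval s *
      (mnr (fun a => f ((Fin.cons l σ : Fin (d + 1) → ℕ) (i.succAbove a))) r).eval s =
      ∑ i : Fin (d + 1), (-1) ^ (i : ℕ) *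
        (∑ t, φ t * (f ((Fin.cons l σ : Fin (d + 1) → ℕ) i) t).eval s) *
        (mnr (fun a => f ((Fin.cons l σ : Fin (d + 1) → ℕ) (i.succAbove a))) r).eval s := by
    simp only [Finset.mul_sum, Finset.sum_mul]
    rw [Finset.sum_comm]
    refine Finset.sum_congr rfl fun i _ => Finset.sum_congr rfl fun t _ => ?_
    ring
  rw [h4, Fin.sum_univ_succ] at h3
  simp only [Fin.cons_zero, Fin.cons_succ, hz, mul_zero, zero_mul, Finset.sum_const_zero,
    add_zero, Fin.val_zero, pow_zero, one_mul, Fin.succAbove_zero] at h3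
  exact (mul_eq_zero.mp h3).resolve_right hne

/-- The counting theorem. -/
theorem count_le [CharZero k] {n : ℕ} (P : k[X]) (B : Matrix (Fin n) (Fin n) k[X])
    (f : ℕ → Fin n → k[X]) (hf : ∀ l, f (l + 1) = nabla P B (f l)) (M c : ℕ)
    (hM : ∀ l j, (f l j).natDegree ≤ M + c * l)
    {ι : Type*} (I : Finset ι) (s : ι → k) (hs : ∀ i ∈ I, ∀ j ∈ I, i ≠ j → s i ≠ s j)
    (hP : ∀ i ∈ I, P.eval (s i) ≠ 0) (φ : ι → Fin n → k) (μ : ℕ)
    (hz : ∀ i ∈ I, ∀ l < μ, ∑ j, φ i j * (f l j).eval (s i) = 0)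
    (e : ℕ) (he : ∀ J ⊆ I, (∀ i ∈ J, ∀ l, ∑ j, φ i j * (f l j).eval (s i) = 0) → J.card ≤ e) :
    2 * ((I.card - e) * (μ + 1 - n)) ≤ 2 * n * M + c * (n * (n - 1)) := by
  classical
  obtain ⟨d, hd, ⟨r, hr⟩, hmin⟩ := exists_rank P B f hf
  rcases Nat.eq_zero_or_pos (μ + 1 - n) with hκ | hκ
  · rw [hκ]
    simp
  obtain ⟨κ, hκd⟩ : ∃ κ, κ = μ + 1 - n := ⟨_, rfl⟩
  rw [← hκd]
  rw [← hκd] at hκ
  obtain ⟨J, hJ⟩ : ∃ J, J = I.filter (fun i => ∀ l, ∑ j, φ i j * (f l j).eval (s i) = 0) :=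
    ⟨_, rfl⟩
  have hJI : J ⊆ I := hJ ▸ Finset.filter_subset _ _
  have hJe : J.card ≤ e := he J hJI fun i hi => by
    rw [hJ, Finset.mem_filter] at hi
    exact hi.2
  -- divisibility at the points that are not exceptional
  have hdiv : ∀ i ∈ I \ J, (X - C (s i)) ^ κ ∣ mnr (fun a : Fin d => f a) r := by
    intro i hi
    rw [Finset.mem_sdiff] at hi
    obtain ⟨hiI, hiJ⟩ := hi
    refine pow_dvd_mnr P B f hf (s i) (hP i hiI) μ ?_ κ (fun a : Fin d => (a : ℕ)) ?_ r
    · intro σ hσ r'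
      by_contra hne
      apply hiJ
      rw [hJ, Finset.mem_filter]
      exact ⟨hiI, sum_eq_zero_of_minor f hmin (s i) (φ i) σ r' hne fun a => hz i hiI _ (hσ a)⟩
    · intro a
      have := a.2
      omega
  have hprod : ∏ i ∈ I \ J, (X - C (s i)) ^ κ ∣ mnr (fun a : Fin d => f a) r := by
    refine Finset.prod_dvd_of_coprime (fun i hi j hj hij => ?_) hdiv
    refine IsCoprime.pow ?_
    refine isCoprime_X_sub_C_of_isUnit_sub ?_
    rw [isUnit_iff_ne_zero, sub_ne_zero]
    exact hs i (Finset.mem_sdiff.1 hi).1 j (Finset.mem_sdiff.1 hj).1 hij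
  have h1 := natDegree_le_of_dvd hprod hr
  rw [natDegree_prod_of_monic _ _ fun i _ => (monic_X_sub_C (s i)).pow κ] at h1
  simp only [natDegree_pow, natDegree_X_sub_C, mul_one, Finset.sum_const, smul_eq_mul] at h1
  have h2 := natDegree_mnr_le (fun a : Fin d => f a) r (fun a => M + c * a) fun a j => hM a j
  have h3 : 2 * ∑ a : Fin d, (M + c * (a : ℕ)) = 2 * d * M + c * (d * (d - 1)) := by
    rw [Fin.sum_univ_eq_sum_range (fun a => M + c * a) d, Finset.sum_add_distrib,
      Finset.sum_const, Finset.card_range, ← Finset.mul_sum, smul_eq_mul]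
    have h4 := Finset.sum_range_id_mul_two d
    calc 2 * (d * M + c * ∑ i ∈ Finset.range d, i) =
        2 * d * M + c * ((∑ i ∈ Finset.range d, i) * 2) := by ring
      _ = _ := by rw [h4]
  have h5 : (I.card - e) * κ ≤ (I \ J).card * κ := by
    refine Nat.mul_le_mul_right _ ?_
    rw [Finset.card_sdiff_of_subset hJI]
    omega
  have h6 : 2 * d * M + c * (d * (d - 1)) ≤ 2 * n * M + c * (n * (n - 1)) := by
    gcongr
  calc 2 * ((I.card - e) * κ) ≤ 2 * ∑ a : Fin d, (M + c * (a : ℕ)) := by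
        refine Nat.mul_le_mul_left _ (h5.trans (h1.trans h2))
    _ = 2 * d * M + c * (d * (d - 1)) := h3
    _ ≤ _ := h6

end Pool.Agent.Work.MP_f2148a_nt.M56.G1
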