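import Mathlib

set_option autoImplicit false

/-!
The ideal of the elements that vanish to infinite order at a point along a derivation is prime.
-/

namespace Pool.Agent.Work.MP_f2148a_nt.M56.G1

open Finset Nat

variable {A : Type*} [CommRing A] {k : Type*} [Field k]

/-- The Leibniz formula for the iterates of a derivation. -/
theorem iterate_leibniz (D : Derivation ℤ A A) (n : ℕ) (a b : A) :
    D^[n] (a * b) = ∑ ij ∈ antidiagonal n, choose n ij.1 • (D^[ij.1] a * D^[ij.2] b) := by
  induction n with
  | zero => simp
  | succ n ih =>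
    rw [sum_antidiagonal_choose_succ_nsmul (M := A) (fun i j => D^[i] a * D^[j] b) n]
    simp only [Function.iterate_succ_apply', ih, map_sum, map_nsmul, Derivation.leibniz,
      smul_eq_mul, smul_add, sum_add_distrib]
    congr 1
    refine sum_congr rfl fun ⟨i, j⟩ hij ↦ ?_
    rw [n.choose_symm_of_eq_add (mem_antidiagonal.1 hij).symm, mul_comm]

/-- The elements that vanish to infinite order at the point `e` along `D`. -/
def infId (D : Derivation ℤ A A) (e : A →+* k) : Ideal A where
  carrier := {g | ∀ l, e (D^[l] g) = 0}
  add_mem' := by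
    intro a b ha hb l
    rw [iterate_map_add, map_add, ha, hb, add_zero]
  zero_mem' := fun l => by rw [iterate_map_zero, map_zero]
  smul_mem' := by
    intro c g hg l
    rw [smul_eq_mul, iterate_leibniz, map_sum]
    refine sum_eq_zero fun ij _ => ?_
    rw [map_nsmul, map_mul, hg, mul_zero, smul_zero]

theorem mem_infId {D : Derivation ℤ A A} {e : A →+* k} {g : A} :
    g ∈ infId D e ↔ ∀ l, e (D^[l] g) = 0 := Iff.rfl

theorem infId_isPrime [CharZero k] (D : Derivation ℤ A A) (e : A →+* k) :
    (infId D e).IsPrime := by
  classical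
  refine ⟨fun h => ?_, fun {g h} hgh => ?_⟩
  · have h1 : (1 : A) ∈ infId D e := by
      rw [h]
      trivial
    have h2 := h1 0
    simp at h2
  · by_contra hcon
    rw [not_or] at hcon
    obtain ⟨hg, hh⟩ := hcon
    rw [mem_infId, not_forall] at hg hh
    have a1 := Nat.find_spec hg
    have b1 := Nat.find_spec hh
    have a2 : ∀ i < Nat.find hg, e (D^[i] g) = 0 := fun i hi => not_not.1 (Nat.find_min hg hi)
    have b2 : ∀ i < Nat.find hh, e (D^[i] h) = 0 := fun i hi => not_not.1 (Nat.find_min hh hi)
    set a := Nat.find hg
    set b := Nat.find hh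
    have h3 := hgh (a + b)
    rw [iterate_leibniz, map_sum, sum_eq_single (a, b)] at h3
    · rw [map_nsmul, map_mul, nsmul_eq_mul] at h3
      have h4 : ((choose (a + b) a : ℕ) : k) ≠ 0 := by
        rw [Nat.cast_ne_zero]
        exact (Nat.choose_pos (Nat.le_add_right a b)).ne'
      rcases mul_eq_zero.1 h3 with h5 | h5
      · exact h4 h5
      · rcases mul_eq_zero.1 h5 with h6 | h6
        · exact a1 h6
        · exact b1 h6
    · intro ij hij hne
      rw [HasAntidiagonal.mem_antidiagonal] at hij
      rw [map_nsmul, map_mul]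
      rcases Nat.lt_or_ge ij.1 a with h5 | h5
      · rw [a2 _ h5, zero_mul, smul_zero]
      · have h6 : ij.2 < b := by
          rcases Nat.lt_or_ge ij.2 b with h7 | h7
          · exact h7
          · exfalso
            apply hne
            ext <;> simp <;> omega
        rw [b2 _ h6, mul_zero, smul_zero]
    · intro h5
      exact absurd (HasAntidiagonal.mem_antidiagonal.2 rfl : (a, b) ∈ antidiagonal (a + b)) h5

/-- If `D g = c * g` and `g` vanishes at the point, it vanishes to infinite order. -/
theorem mem_infId_of_flat {D : Derivation ℤ A A} {e : A →+* k} {g c : A} (h : D g = c * g)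
    (h0 : e g = 0) : g ∈ infId D e := by
  intro l
  obtain ⟨w, hw⟩ : ∃ w, D^[l] g = w * g := by
    induction l with
    | zero => exact ⟨1, by simp⟩
    | succ l ih =>
      obtain ⟨w, hw⟩ := ih
      refine ⟨w * c + D w, ?_⟩
      rw [Function.iterate_succ_apply', hw, Derivation.leibniz, h, smul_eq_mul, smul_eq_mul]
      ring
  rw [hw, map_mul, h0, mul_zero]

end Pool.Agent.Work.MP_f2148a_nt.M56.G1
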