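import Mathlib
import Pool.Agent.Work.MP_f2148a_nt.M56.G1.Biv
import Pool.Agent.Work.MP_f2148a_nt.M56.G1.Prime

set_option autoImplicit false

/-!
The number of exceptional points: points where `f` vanishes to infinite order.
-/

namespace Pool.Agent.Work.MP_f2148a_nt.M56.G1

open Polynomial

variable {k : Type*} [Field k]

/-- A nonzero polynomial over a field lies in at most `natDegree` prime ideals. -/
theorem card_le_natDegree {K : Type*} [Field K] {F : K[X]} (hF : F ≠ 0) {ι : Type*}
    (J : Finset ι) (q : ι → Ideal K[X]) (hq : ∀ i ∈ J, (q i).IsPrime) (hFq : ∀ i ∈ J, F ∈ q i)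
    (hne : ∀ i ∈ J, ∀ j ∈ J, i ≠ j → q i ≠ q j) : J.card ≤ F.natDegree := by
  classical
  have hbot : ∀ i ∈ J, q i ≠ ⊥ := fun i hi h => hF (by
    have := hFq i hi
    rw [h] at this
    simpa using this)
  have hmax : ∀ i ∈ J, (q i).IsMaximal := fun i hi => by
    have := hq i hi
    exact IsPrime.to_maximal_ideal (hbot i hi)
  let g : ι → K[X] := fun i => Submodule.IsPrincipal.generator (q i)
  have hg : ∀ i, Ideal.span {g i} = q i := fun i => Ideal.span_singleton_generator (q i)
  have hdvd : ∏ i ∈ J, g i ∣ F := by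
    refine Finset.prod_dvd_of_coprime (fun i hi j hj hij => ?_) fun i hi => ?_
    · show IsCoprime (g i) (g j)
      rw [← Ideal.isCoprime_span_singleton_iff, hg, hg, Ideal.isCoprime_iff_sup_eq]
      exact (hmax i hi).coprime_of_ne (hmax j hj) (hne i hi j hj hij)
    · rw [← Ideal.mem_span_singleton, hg]
      exact hFq i hi
  have hdeg : ∀ i ∈ J, 1 ≤ (g i).natDegree := by
    intro i hi
    by_contra hcon
    have h0 : (g i).natDegree = 0 := by omega
    rw [natDegree_eq_zero] at h0
    obtain ⟨a, ha⟩ := h0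
    have ha0 : a ≠ 0 := by
      rintro rfl
      apply hbot i hi
      rw [← hg, ← ha, C_0]
      simp
    apply (hq i hi).ne_top
    rw [← hg, ← ha, Ideal.span_singleton_eq_top]
    exact (isUnit_C.2 (isUnit_iff_ne_zero.2 ha0))
  have h0 : ∀ i ∈ J, g i ≠ 0 := fun i hi h => by
    have := hdeg i hi
    rw [h, natDegree_zero] at this
    omega
  calc J.card = ∑ i ∈ J, 1 := by simp
    _ ≤ ∑ i ∈ J, (g i).natDegree := Finset.sum_le_sum hdeg
    _ = (∏ i ∈ J, g i).natDegree := (natDegree_prod _ _ h0).symm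
    _ ≤ F.natDegree := natDegree_le_of_dvd hdvd hF

/-- The number of exceptional points is at most the degree in `v`. -/
theorem exc_le [CharZero k] (P : k[X]) (B Φ₁ Φ₂ L : k[X][X])
    (h1 : dl P B Φ₁ = L * Φ₁) (h2 : dl P B Φ₂ = L * Φ₂)
    {ι : Type*} (J : Finset ι) (s v : ι → k) (hPs : ∀ i ∈ J, P.eval (s i) ≠ 0)
    (hc : ∀ i ∈ J, ∀ j ∈ J, i ≠ j →
      ev (s i) (v i) Φ₁ * ev (s j) (v j) Φ₂ ≠ ev (s j) (v j) Φ₁ * ev (s i) (v i) Φ₂)
    (f : k[X][X]) (hf : f ≠ 0)
    (hz : ∀ i ∈ J, ∀ l, ev (s i) (v i) ((dl P B)^[l] f) = 0) : J.card ≤ f.natDegree := by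
  classical
  let K := FractionRing k[X]
  letI : Algebra k[X][X] K[X] := Polynomial.algebra k[X] K
  have hloc : IsLocalization ((nonZeroDivisors k[X]).map (C : k[X] →+* k[X][X])) K[X] :=
    Polynomial.isLocalization (nonZeroDivisors k[X]) K
  have halg : ∀ g : k[X][X], algebraMap k[X][X] K[X] g = g.map (algebraMap k[X] K) :=
    fun g => rfl
  let p : ι → Ideal k[X][X] := fun i => infId (dD P B) (evH (s i) (v i))
  have hpp : ∀ i, (p i).IsPrime := fun i => infId_isPrime _ _
  have hpd : ∀ i ∈ J, Disjoint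
      (((nonZeroDivisors k[X]).map (C : k[X] →+* k[X][X]) : Submonoid k[X][X]) : Set k[X][X])
      (p i) := by
    intro i hi
    rw [Set.disjoint_left]
    rintro _ ⟨r, hr, rfl⟩ hmem
    obtain ⟨l, hl⟩ := exists_iter_ne_zero P B (s i) (v i) (hPs i hi) r
      (nonZeroDivisors.ne_zero hr)
    exact hl (hmem l)
  have hF : algebraMap k[X][X] K[X] f ≠ 0 := by
    rw [halg]
    intro h
    apply hf
    exact (Polynomial.map_injective _ (IsFractionRing.injective k[X] K)) (by rw [h, Polynomial.map_zero])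
  have hdeg : (algebraMap k[X][X] K[X] f).natDegree ≤ f.natDegree := by
    rw [halg]
    exact natDegree_map_le
  refine (card_le_natDegree hF J (fun i => (p i).map (algebraMap k[X][X] K[X])) ?_ ?_ ?_).trans
    hdeg
  · intro i hi
    exact IsLocalization.isPrime_of_isPrime_disjoint _ K[X] (p i) (hpp i) (hpd i hi)
  · intro i hi
    exact Ideal.mem_map_of_mem _ (hz i hi)
  · intro i hi j hj hij heq
    have h3 : p i = p j := by
      rw [← IsLocalization.under_map_of_isPrime_disjoint
          ((nonZeroDivisors k[X]).map (C : k[X] →+* k[X][X])) K[X] (hpp i) (hpd i hi),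
        ← IsLocalization.under_map_of_isPrime_disjoint
          ((nonZeroDivisors k[X]).map (C : k[X] →+* k[X][X])) K[X] (hpp j) (hpd j hj)]
      exact congrArg (fun I : Ideal K[X] => I.under k[X][X]) heq
    -- the member of the pencil through the point `i`
    obtain ⟨G, hG⟩ : ∃ G : k[X][X], G = C (C (ev (s i) (v i) Φ₂)) * Φ₁ -
      C (C (ev (s i) (v i) Φ₁)) * Φ₂ := ⟨_, rfl⟩
    have hcc : ∀ a : k, dl P B (C (C a)) = 0 := by
      intro a
      rw [dl_C, derivative_C, mul_zero, C_0]
    have hflat : dD P B G = L * G := by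
      rw [hG, map_sub, Derivation.leibniz, Derivation.leibniz, dD_apply, dD_apply, dD_apply,
        dD_apply, hcc, hcc, h1, h2]
      simp only [smul_eq_mul]
      ring
    have hev : ∀ j, evH (s j) (v j) G = ev (s i) (v i) Φ₂ * ev (s j) (v j) Φ₁ -
        ev (s i) (v i) Φ₁ * ev (s j) (v j) Φ₂ := by
      intro j
      rw [hG, map_sub, map_mul, map_mul, evH_apply, evH_apply, evH_apply, evH_apply, ev_C, ev_C,
        eval_C, eval_C]
    have hGi : G ∈ p i := mem_infId_of_flat hflat (by
      rw [hev]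
      ring)
    rw [h3] at hGi
    have h5 := hGi 0
    rw [Function.iterate_zero_apply, hev] at h5
    apply hc i hi j hj hij
    linear_combination -h5

end Pool.Agent.Work.MP_f2148a_nt.M56.G1
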