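import Mathlib
import Pool.Agent.Work.MP_f2148a_nt.M56.G1.Defs
import Pool.Agent.Work.MP_f2148a_nt.M56.G1.Count
import Pool.Agent.Work.MP_f2148a_nt.M56.G1.Exc

set_option autoImplicit false

/-!
The zero estimate.
-/

namespace Pool.Agent.Work.MP_f2148a_nt.M56.G1

open Polynomial

section twist

variable {A : Type*} [CommRing A] {k : Type*} [Field k] (D : Derivation ℤ A A) (e : A →+* k)

/-- `g ↦ D g + w g` -/
private def tw (w g : A) : A := D g + w * g

private theorem tw_add (w g h : A) (l : ℕ) :
    (tw D w)^[l] (g + h) = (tw D w)^[l] g + (tw D w)^[l] h := by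
  induction l generalizing g h with
  | zero => rfl
  | succ l ih =>
    rw [Function.iterate_succ_apply, Function.iterate_succ_apply, Function.iterate_succ_apply,
      ← ih]
    congr 1
    unfold tw
    rw [map_add]
    ring

private theorem tw_mul (w : A) (m : ℕ) (a g : A) (h : ∀ j < m, e ((tw D w)^[j] g) = 0) :
    ∀ j < m, e ((tw D w)^[j] (a * g)) = 0 := by
  induction m generalizing a g with
  | zero =>
    intro j hj
    omega
  | succ m ih =>
    intro j hj
    rcases Nat.eq_zero_or_pos j with rfl | hj0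
    · have h0 := h 0 (by omega)
      rw [Function.iterate_zero_apply] at h0 ⊢
      rw [map_mul, h0, mul_zero]
    · obtain ⟨i, rfl⟩ : ∃ i, j = i + 1 := ⟨j - 1, by omega⟩
      rw [Function.iterate_succ_apply]
      have h1 : tw D w (a * g) = D a * g + a * tw D w g := by
        unfold tw
        rw [Derivation.leibniz, smul_eq_mul, smul_eq_mul]
        ring
      rw [h1, tw_add, map_add, ih (D a) g (fun j hj => h j (by omega)) i (by omega),
        ih a (tw D w g) (fun j hj => by
          rw [← Function.iterate_succ_apply]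
          exact h (j + 1) (by omega)) i (by omega), add_zero]

private theorem tw_change (w w' : A) (m : ℕ) (g : A) (h : ∀ j < m, e ((tw D w)^[j] g) = 0) :
    ∀ j < m, e ((tw D w')^[j] g) = 0 := by
  induction m generalizing g with
  | zero =>
    intro j hj
    omega
  | succ m ih =>
    intro j hj
    rcases Nat.eq_zero_or_pos j with rfl | hj0
    · exact h 0 (by omega)
    · obtain ⟨i, rfl⟩ : ∃ i, j = i + 1 := ⟨j - 1, by omega⟩
      rw [Function.iterate_succ_apply]
      refine ih (tw D w' g) (fun j hj => ?_) i (by omega)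
      have h1 : tw D w' g = tw D w g + (w' - w) * g := by
        unfold tw
        ring
      rw [h1, tw_add, map_add, ← Function.iterate_succ_apply, h (j + 1) (by omega),
        tw_mul D e w m (w' - w) g (fun j hj => h j (by omega)) j hj, add_zero]

end twist

variable {k : Type*} [Field k]

/-- The twisted operator; it preserves the polynomials of degree at most `N` in `v`. -/
private noncomputable def nb (P : k[X]) (B : k[X][X]) (N : ℕ) (f : k[X][X]) : k[X][X] :=
  dl P B f + (-(C ((N : k[X]) * B.coeff 2) * X)) * f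

private theorem nb_eq (P : k[X]) (B : k[X][X]) (N : ℕ) :
    nb P B N = tw (dD P B) (-(C ((N : k[X]) * B.coeff 2) * X)) := by
  funext f
  rfl

private theorem dl_eq (P : k[X]) (B : k[X][X]) : dl P B = tw (dD P B) 0 := by
  funext f
  unfold tw
  rw [zero_mul, add_zero]
  rfl

/-- The matrix of the twisted operator. -/
private noncomputable def mB (B : k[X][X]) (N : ℕ) :
    Matrix (Fin (N + 1)) (Fin (N + 1)) k[X] := fun j i =>
  (if (i : ℕ) = j + 1 then B.coeff 0 * (i : ℕ) else 0) +
    (if (i : ℕ) = j then B.coeff 1 * (i : ℕ) else 0) +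
    if (i : ℕ) + 1 = j then B.coeff 2 * ((i : ℕ) - (N : k[X])) else 0

private theorem coeff_X_mul_derivative (f : k[X][X]) (j : ℕ) :
    (X * derivative f).coeff j = (j : k[X]) * f.coeff j := by
  rcases j with _ | j
  · simp
  · rw [coeff_X_mul, coeff_derivative]
    push_cast
    ring

private theorem coeff_nb (P : k[X]) {B : k[X][X]} (hB : B.natDegree ≤ 2) (N : ℕ) (f : k[X][X])
    (j : ℕ) : (nb P B N f).coeff j = P * derivative (f.coeff j) +
      B.coeff 0 * ((j : k[X]) + 1) * f.coeff (j + 1) + B.coeff 1 * (j : k[X]) * f.coeff j +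
      if j = 0 then 0 else B.coeff 2 * (((j - 1 : ℕ) : k[X]) - N) * f.coeff (j - 1) := by
  have hB' : B = C (B.coeff 0) + C (B.coeff 1) * X + C (B.coeff 2) * X ^ 2 := by
    conv_lhs => rw [B.as_sum_range' 3 (by omega)]
    simp only [Finset.sum_range_succ, Finset.sum_range_zero, zero_add, ← C_mul_X_pow_eq_monomial,
      pow_zero, mul_one, pow_one]
  have h1 : nb P B N f = dS P f + C (B.coeff 0) * derivative f +
      C (B.coeff 1) * (X * derivative f) +
      C (B.coeff 2) * (X * (X * derivative f - C (N : k[X]) * f)) := by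
    unfold nb dl
    conv_lhs => rw [hB']
    simp only [coeff_add, coeff_C_mul, coeff_X, coeff_X_pow, coeff_C_succ, map_mul]
    norm_num
    ring
  rw [h1]
  simp only [coeff_add, coeff_C_mul, coeff_dS, coeff_X_mul_derivative, coeff_derivative]
  rcases j with _ | j
  · simp
  · rw [coeff_X_mul, coeff_sub, coeff_X_mul_derivative, coeff_C_mul, if_neg (Nat.succ_ne_zero j)]
    simp only [Nat.add_sub_cancel]
    push_cast
    ring

private theorem natDegree_nb (P : k[X]) {B : k[X][X]} (hB : B.natDegree ≤ 2) (N : ℕ)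
    {f : k[X][X]} (hf : f.natDegree ≤ N) : (nb P B N f).natDegree ≤ N := by
  rw [natDegree_le_iff_coeff_eq_zero]
  intro j hj
  have h0 : ∀ i, N < i → f.coeff i = 0 := fun i hi => coeff_eq_zero_of_natDegree_lt (by omega)
  rw [coeff_nb P hB, h0 j hj, h0 (j + 1) (by omega), if_neg (by omega)]
  rcases Nat.lt_or_ge N (j - 1) with h | h
  · rw [h0 _ h]
    simp
  · have h2 : j - 1 = N := by omega
    rw [h2]
    simp

private theorem vec_nb (P : k[X]) {B : k[X][X]} (hB : B.natDegree ≤ 2) (N : ℕ)
    {f : k[X][X]} (hf : f.natDegree ≤ N) :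
    (fun j : Fin (N + 1) => (nb P B N f).coeff j) =
      nabla P (mB B N) (fun j : Fin (N + 1) => f.coeff j) := by
  funext j
  rw [coeff_nb P hB]
  unfold nabla
  have h0 : ∀ i, N < i → f.coeff i = 0 := fun i hi => coeff_eq_zero_of_natDegree_lt (by omega)
  have h1 : ((mB B N).mulVec fun j : Fin (N + 1) => f.coeff j) j =
      ∑ i ∈ Finset.range (N + 1), ((if i = (j : ℕ) + 1 then B.coeff 0 * (i : k[X]) else 0) +
        (if i = (j : ℕ) then B.coeff 1 * (i : k[X]) else 0) +
        if i + 1 = (j : ℕ) then B.coeff 2 * ((i : k[X]) - N) else 0) * f.coeff i := by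
    rw [Finset.sum_range]
    rfl
  rw [h1]
  simp only [add_mul, Finset.sum_add_distrib, ite_mul, zero_mul]
  have h4 : (j : ℕ) ∈ Finset.range (N + 1) := Finset.mem_range.2 j.2
  rw [Finset.sum_ite_eq', Finset.sum_ite_eq', if_pos h4]
  have h2 : (if (j : ℕ) + 1 ∈ Finset.range (N + 1) then
      B.coeff 0 * (((j : ℕ) + 1 : ℕ) : k[X]) * f.coeff ((j : ℕ) + 1) else 0) =
      B.coeff 0 * (((j : ℕ) : k[X]) + 1) * f.coeff ((j : ℕ) + 1) := by
    split_ifs with h
    · push_cast
      ring
    · rw [Finset.mem_range] at h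
      rw [h0 _ (by omega)]
      simp
  rw [h2]
  have h3 : (∑ i ∈ Finset.range (N + 1), if i + 1 = (j : ℕ) then
      B.coeff 2 * ((i : k[X]) - N) * f.coeff i else 0) =
      if (j : ℕ) = 0 then 0 else
        B.coeff 2 * ((((j : ℕ) - 1 : ℕ) : k[X]) - N) * f.coeff ((j : ℕ) - 1) := by
    split_ifs with h
    · refine Finset.sum_eq_zero fun i _ => ?_
      rw [if_neg (by omega)]
    · have hj := j.2
      rw [Finset.sum_eq_single ((j : ℕ) - 1)]
      · rw [if_pos (by omega)]
      · intro i _ hi
        rw [if_neg (by omega)]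
      · intro hi
        rw [Finset.mem_range] at hi
        omega
  rw [h3]
  ring

private theorem natDegree_nabla_le {P : k[X]} {B : k[X][X]} (hP : P.natDegree ≤ 3)
    (hB' : ∀ j, (B.coeff j).natDegree ≤ 3) {N : ℕ} {g : Fin (N + 1) → k[X]} {m : ℕ}
    (hg : ∀ j, (g j).natDegree ≤ m) (j : Fin (N + 1)) :
    (nabla P (mB B N) g j).natDegree ≤ m + 3 := by
  unfold nabla
  refine (natDegree_add_le _ _).trans (max_le ?_ ?_)
  · refine natDegree_mul_le.trans ?_
    have h1 := natDegree_derivative_le (g j)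
    have h2 := hg j
    omega
  · show (∑ i, mB B N j i * g i).natDegree ≤ m + 3
    refine natDegree_sum_le_of_forall_le _ _ fun i _ => ?_
    refine natDegree_mul_le.trans ?_
    have h3 : (mB B N j i).natDegree ≤ 3 := by
      unfold mB
      refine (natDegree_add_le _ _).trans (max_le ((natDegree_add_le _ _).trans (max_le ?_ ?_)) ?_)
      · split_ifs
        · refine natDegree_mul_le.trans ?_
          rw [natDegree_natCast, add_zero]
          exact hB' 0
        · simp
      · split_ifs
        · refine natDegree_mul_le.trans ?_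
          rw [natDegree_natCast, add_zero]
          exact hB' 1
        · simp
      · split_ifs
        · refine natDegree_mul_le.trans ?_
          have h4 : (((i : ℕ) : k[X]) - (N : k[X])).natDegree = 0 := by
            have h6 := natDegree_sub_le ((i : ℕ) : k[X]) (N : k[X])
            rw [natDegree_natCast, natDegree_natCast] at h6
            simpa using h6
          rw [h4, add_zero]
          exact hB' 2
        · simp
    have h5 := hg i
    omega

private theorem ev_eq_sum (s v : k) {N : ℕ} {f : k[X][X]} (hf : f.natDegree ≤ N) :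
    ev s v f = ∑ j : Fin (N + 1), v ^ (j : ℕ) * (f.coeff j).eval s := by
  unfold ev
  rw [eval_eq_sum_range' (n := N + 1) (lt_of_le_of_lt natDegree_map_le (by omega)),
    Finset.sum_range]
  refine Finset.sum_congr rfl fun j _ => ?_
  rw [coeff_map, coe_evalRingHom, mul_comm]

/-- Zero estimate (block G1) over any field of characteristic zero: the derivation is
`P(s) d/ds + B(s,v) d/dv` with `deg_s P ≤ 3`, `deg_v B ≤ 2`, `deg_s B ≤ 3`; `Φ₁, Φ₂` are two
polynomials with the same multiplier; `f ≠ 0` has degree `≤ N` in `v` and `≤ M` in `s`. -/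
theorem zero_estimate [CharZero k] (P : k[X]) (B Φ₁ Φ₂ L : k[X][X])
    (hP : P.natDegree ≤ 3) (hB : B.natDegree ≤ 2) (hB' : ∀ j, (B.coeff j).natDegree ≤ 3)
    (h1 : dl P B Φ₁ = L * Φ₁) (h2 : dl P B Φ₂ = L * Φ₂)
    {ι : Type*} (I : Finset ι) (s v : ι → k)
    (hs : ∀ i ∈ I, ∀ j ∈ I, i ≠ j → s i ≠ s j) (hPs : ∀ i ∈ I, P.eval (s i) ≠ 0)
    (hc : ∀ i ∈ I, ∀ j ∈ I, i ≠ j →
      ev (s i) (v i) Φ₁ * ev (s j) (v j) Φ₂ ≠ ev (s j) (v j) Φ₁ * ev (s i) (v i) Φ₂)
    (M N μ : ℕ) (f : k[X][X]) (hf : f ≠ 0) (hN : f.natDegree ≤ N)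
    (hM : ∀ j, (f.coeff j).natDegree ≤ M)
    (hz : ∀ i ∈ I, ∀ l < μ, ev (s i) (v i) ((dl P B)^[l] f) = 0) :
    2 * ((I.card - N) * (μ - N)) ≤ 2 * (N + 1) * M + 3 * N * (N + 1) := by
  have hd : ∀ l, ((nb P B N)^[l] f).natDegree ≤ N := by
    intro l
    induction l with
    | zero => exact hN
    | succ l ih =>
      rw [Function.iterate_succ_apply']
      exact natDegree_nb P hB N ih
  have hrec : ∀ l, (fun j : Fin (N + 1) => ((nb P B N)^[l + 1] f).coeff j) =
      nabla P (mB B N) (fun j : Fin (N + 1) => ((nb P B N)^[l] f).coeff j) := by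
    intro l
    rw [Function.iterate_succ_apply']
    exact vec_nb P hB N (hd l)
  have hdeg : ∀ l, ∀ j : Fin (N + 1), (((nb P B N)^[l] f).coeff j).natDegree ≤ M + 3 * l := by
    intro l
    induction l with
    | zero => exact fun j => hM j
    | succ l ih =>
      intro j
      have h3 := congrFun (hrec l) j
      rw [h3]
      exact (natDegree_nabla_le hP hB' ih j).trans (by omega)
  have h4 := count_le P (mB B N) (fun l (j : Fin (N + 1)) => ((nb P B N)^[l] f).coeff j) hrec M 3
    hdeg I s hs hPs (fun i (j : Fin (N + 1)) => v i ^ (j : ℕ)) μ ?_ N ?_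
  · have h5 : μ + 1 - (N + 1) = μ - N := by omega
    rw [h5] at h4
    refine h4.trans (le_of_eq ?_)
    simp only [Nat.add_sub_cancel]
    ring
  · intro i hi l hl
    rw [← ev_eq_sum (s i) (v i) (hd l)]
    have h5 := tw_change (dD P B) (evH (s i) (v i)) 0 (-(C ((N : k[X]) * B.coeff 2) * X)) μ f
      (fun j hj => by
        rw [← dl_eq]
        exact hz i hi j hj) l hl
    rw [← nb_eq] at h5
    exact h5
  · intro J hJ hJz
    refine (exc_le P B Φ₁ Φ₂ L h1 h2 J s v (fun i hi => hPs i (hJ hi))
      (fun i hi j hj => hc i (hJ hi) j (hJ hj)) f hf fun i hi l => ?_).trans hN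
    have h5 := tw_change (dD P B) (evH (s i) (v i)) (-(C ((N : k[X]) * B.coeff 2) * X)) 0
      (l + 1) f (fun j _ => by
        rw [← nb_eq, evH_apply, ev_eq_sum (s i) (v i) (hd j)]
        exact hJz i hi j) l (by omega)
    rw [← dl_eq] at h5
    exact h5

end Pool.Agent.Work.MP_f2148a_nt.M56.G1
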